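import Pool.Agent.H85.LK.Targets

/-!
# LA: Rayleigh quotients bound `lam N 1`
-/

set_option autoImplicit false

open MeasureTheory Metric Set

namespace Pool.Agent.H65.LK

open Pool.Agent.H85.LK

theorem pf_LA (hAP : T_AP) : T_LA := by
  intro N Ω v _ hv hc hΩ
  have hD : 0 ≤ ∫ x, ‖fderiv ℝ v x‖ ^ 2 := integral_nonneg fun x => by positivity
  have hI : 0 ≤ ∫ x, v x ^ 2 := integral_nonneg fun x => by positivity
  rcases hI.eq_or_lt with h0 | hpos
  · rw [← h0, mul_zero]; exact hD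
  have hv0 : v ≠ 0 := by
    rintro rfl
    simp at hpos
  set c : ℝ := (∫ x, ‖fderiv ℝ v x‖ ^ 2) / ∫ x, v x ^ 2 with hcdef
  have hmem : c ∈ adm N 1 Ω := by
    refine ⟨Submodule.span ℝ {v}, finrank_span_singleton hv0, ?_⟩
    intro w hw
    obtain ⟨a, rfl⟩ := Submodule.mem_span_singleton.mp hw
    have hsub : tsupport (a • v) ⊆ tsupport v :=
      closure_mono (Function.support_const_smul_subset a v)
    refine ⟨contDiff_const.smul hv, ?_, hsub.trans hΩ, ?_⟩
    · exact hc.of_isClosed_subset (isClosed_tsupport _) hsub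
    · have h1 : ∀ x, fderiv ℝ (a • v) x = a • fderiv ℝ v x := fun x =>
        fderiv_const_smul ((hv.differentiable (by simp)) x) a
      have h2 : (fun x => ‖fderiv ℝ (a • v) x‖ ^ 2) = fun x => a ^ 2 * ‖fderiv ℝ v x‖ ^ 2 := by
        funext x
        rw [h1, norm_smul, mul_pow, Real.norm_eq_abs, sq_abs]
      have h3 : (fun x => (a • v) x ^ 2) = fun x => a ^ 2 * v x ^ 2 := by
        funext x
        rw [Pi.smul_apply, smul_eq_mul, mul_pow]
      rw [h2, h3, integral_const_mul, integral_const_mul]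
      have h4 : c * (a ^ 2 * ∫ x, v x ^ 2) = a ^ 2 * ∫ x, ‖fderiv ℝ v x‖ ^ 2 := by
        rw [hcdef]
        field_simp
      rw [h4]
  have hle : lam N 1 Ω ≤ c := by
    unfold lam
    exact csInf_le ⟨0, fun b hb => hAP N 1 Ω b le_rfl hb⟩ hmem
  calc lam N 1 Ω * ∫ x, v x ^ 2 ≤ c * ∫ x, v x ^ 2 := mul_le_mul_of_nonneg_right hle hI
    _ = ∫ x, ‖fderiv ℝ v x‖ ^ 2 := by
      rw [hcdef]
      field_simp

end Pool.Agent.H65.LK
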