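import Pool.Agent.H85.LK.Targets

/-!
# ENL: the energy inequality
-/

set_option autoImplicit false

open MeasureTheory Metric Set

namespace Pool.Agent.H65.LK

open Pool.Agent.H85.LK

/-- Cauchy-Schwarz on the unit interval -/
private lemma cs01 (g : ℝ → ℝ) (hg : Continuous g) :
    (∫ t in (0 : ℝ)..1, g t) ^ 2 ≤ ∫ t in (0 : ℝ)..1, g t ^ 2 := by
  set c := ∫ t in (0 : ℝ)..1, g t with hc
  have h0 : 0 ≤ ∫ t in (0 : ℝ)..1, (g t - c) ^ 2 :=
    intervalIntegral.integral_nonneg zero_le_one fun t _ => sq_nonneg _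
  have h1 : (fun t => (g t - c) ^ 2) = fun t => g t ^ 2 - 2 * c * g t + c ^ 2 := by
    funext t; ring
  have i1 : IntervalIntegrable (fun t => g t ^ 2) volume 0 1 := (hg.pow 2).intervalIntegrable _ _
  have i2 : IntervalIntegrable (fun t => 2 * c * g t) volume 0 1 :=
    (continuous_const.mul hg).intervalIntegrable _ _
  rw [h1, intervalIntegral.integral_add (i1.sub i2) intervalIntegrable_const,
    intervalIntegral.integral_sub i1 i2, intervalIntegral.integral_const_mul,
    intervalIntegral.integral_const, ← hc] at h0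
  simp only [sub_zero, one_smul] at h0
  linarith [h0]

private lemma line {N : ℕ} {ψ : E N → ℝ} (hψ : ContDiff ℝ (⊤ : ℕ∞) ψ) (y z : E N) :
    (ψ (y + z) - ψ y) ^ 2 ≤ ∫ t in (0 : ℝ)..1, (fderiv ℝ ψ (y + t • z) z) ^ 2 := by
  have hDc : Continuous (fderiv ℝ ψ) := hψ.continuous_fderiv (by simp)
  have hd : ∀ t : ℝ, HasDerivAt (fun t : ℝ => ψ (y + t • z)) (fderiv ℝ ψ (y + t • z) z) t := by
    intro t
    have h1 : HasFDerivAt ψ (fderiv ℝ ψ (y + t • z)) (y + t • z) :=
      (hψ.differentiable (by simp) _).hasFDerivAt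
    have h2 : HasDerivAt (fun t : ℝ => y + t • z) z t := by
      have := ((hasDerivAt_id t).smul_const z).const_add y
      simpa using this
    exact h1.comp_hasDerivAt t h2
  have hgc : Continuous (fun t : ℝ => fderiv ℝ ψ (y + t • z) z) :=
    (hDc.comp (by fun_prop : Continuous fun t : ℝ => y + t • z)).clm_apply continuous_const
  have h3 := intervalIntegral.integral_eq_sub_of_hasDerivAt (a := (0 : ℝ)) (b := 1)
    (fun t _ => hd t) (hgc.intervalIntegrable _ _)
  rw [one_smul, zero_smul, add_zero] at h3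
  rw [← h3]
  exact cs01 _ hgc

theorem pf_ENL (hHK : T_HK) (hQID : T_QID) : T_ENL := by
  intro N s ψ hs hψ hc
  have hcont : Continuous ψ := hψ.continuous
  have hDc : Continuous (fderiv ℝ ψ) := hψ.continuous_fderiv (by simp)
  obtain ⟨M, hM⟩ := hcont.bounded_above_of_compact_support hc
  have hBd : Bd (tsupport ψ) ψ :=
    ⟨hcont.measurable, ⟨M, fun x => by simpa using hM x⟩,
      fun x hx => image_eq_zero_of_notMem_tsupport hx⟩
  obtain ⟨hFint, hEq⟩ := hQID N s (tsupport ψ) ψ hs (isClosed_tsupport ψ).measurableSet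
    hc.isCompact.isBounded hBd
  obtain ⟨hkpos, hkcont, hkint, hk1, hk2int, hk2, -, -⟩ := hHK N s hs
  have hkc : Continuous (hk N s) := hkcont
  -- the Gaussian average of the squared differential
  have hGauss : ∀ L : E N →L[ℝ] ℝ, ∫⁻ z, ENNReal.ofReal (hk N s z * (L z) ^ 2) =
      ENNReal.ofReal (2 * s * ‖L‖ ^ 2) := by
    intro L
    set a : E N := (InnerProductSpace.toDual ℝ (E N)).symm L with ha
    have hLa : ∀ z, L z = inner ℝ z a := by
      intro z
      rw [real_inner_comm, ha, InnerProductSpace.toDual_symm_apply]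
    have hna : ‖a‖ = ‖L‖ := by rw [ha, LinearIsometryEquiv.norm_map]
    have hint : Integrable (fun z => hk N s z * (L z) ^ 2) := by
      refine (hk2int.mul_const (‖L‖ ^ 2)).mono'
        ((hkc.mul (L.continuous.pow 2)).aestronglyMeasurable) (Filter.Eventually.of_forall ?_)
      intro z
      rw [Real.norm_eq_abs, abs_mul, abs_of_pos (hkpos z), abs_pow, mul_assoc]
      refine mul_le_mul_of_nonneg_left ?_ (hkpos z).le
      rw [← mul_pow]
      refine pow_le_pow_left₀ (abs_nonneg _) ?_ 2
      rw [mul_comm]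
      exact L.le_opNorm z
    rw [← ofReal_integral_eq_lintegral_ofReal hint
      (Filter.Eventually.of_forall fun z => mul_nonneg (hkpos z).le (sq_nonneg _))]
    rw [show (fun z => hk N s z * (L z) ^ 2) = fun z => hk N s z * inner ℝ z a ^ 2 from
      funext fun z => by rw [hLa], hk2, hna]
  -- integrability of the energy density
  have hDi : Integrable (fun x => ‖fderiv ℝ ψ x‖ ^ 2) := by
    have hcs : HasCompactSupport (fun x => ‖fderiv ℝ ψ x‖ ^ 2) := by
      refine (hc.fderiv (𝕜 := ℝ)).comp_left (g := fun L : E N →L[ℝ] ℝ => ‖L‖ ^ 2) ?_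
      simp
    exact (hDc.norm.pow 2).integrable_of_hasCompactSupport hcs
  have hDnn : 0 ≤ ∫ x, ‖fderiv ℝ ψ x‖ ^ 2 := integral_nonneg fun x => by positivity
  -- main estimate
  have hmain : ∫⁻ p : E N × E N, ENNReal.ofReal (hk N s (p.1 - p.2) * (ψ p.1 - ψ p.2) ^ 2)
      ∂(volume.prod volume) ≤ ENNReal.ofReal (2 * s * ∫ x, ‖fderiv ℝ ψ x‖ ^ 2) := by
    have hFc : Continuous (fun p : E N × E N => hk N s (p.1 - p.2) * (ψ p.1 - ψ p.2) ^ 2) := by
      fun_prop
    have hGc : Continuous (fun q : (E N × E N) × ℝ =>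
        hk N s q.1.2 * (fderiv ℝ ψ (q.1.1 + q.2 • q.1.2) q.1.2) ^ 2) := by
      refine (hkc.comp (by fun_prop)).mul (Continuous.pow ?_ 2)
      exact (hDc.comp (by fun_prop)).clm_apply (by fun_prop)
    rw [lintegral_prod_symm' _ hFc.measurable.ennreal_ofReal]
    calc ∫⁻ y : E N, ∫⁻ x : E N, ENNReal.ofReal (hk N s (x - y) * (ψ x - ψ y) ^ 2)
        = ∫⁻ y : E N, ∫⁻ z : E N, ENNReal.ofReal (hk N s z * (ψ (y + z) - ψ y) ^ 2) := by
          refine lintegral_congr fun y => ?_
          rw [← lintegral_sub_right_eq_self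
            (fun z => ENNReal.ofReal (hk N s z * (ψ (y + z) - ψ y) ^ 2)) y]
          simp only [add_sub_cancel]
      _ ≤ ∫⁻ y : E N, ∫⁻ z : E N, ∫⁻ t in Ioc (0 : ℝ) 1,
            ENNReal.ofReal (hk N s z * (fderiv ℝ ψ (y + t • z) z) ^ 2) := by
          refine lintegral_mono fun y => lintegral_mono fun z => ?_
          have hgc : Continuous (fun t : ℝ => hk N s z * (fderiv ℝ ψ (y + t • z) z) ^ 2) :=
            continuous_const.mul (((hDc.comp
              (by fun_prop : Continuous fun t : ℝ => y + t • z)).clm_apply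
                continuous_const).pow 2)
          have hint : Integrable (fun t : ℝ => hk N s z * (fderiv ℝ ψ (y + t • z) z) ^ 2)
              (volume.restrict (Ioc (0 : ℝ) 1)) :=
            (hgc.integrableOn_Icc (a := 0) (b := 1)).mono_set Ioc_subset_Icc_self
          rw [← ofReal_integral_eq_lintegral_ofReal hint (Filter.Eventually.of_forall
            fun t => mul_nonneg (hkpos z).le (sq_nonneg _))]
          refine ENNReal.ofReal_le_ofReal ?_
          rw [integral_const_mul]
          refine mul_le_mul_of_nonneg_left ?_ (hkpos z).le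
          have := line hψ y z
          rwa [intervalIntegral.integral_of_le zero_le_one] at this
      _ = ∫⁻ z : E N, ∫⁻ y : E N, ∫⁻ t in Ioc (0 : ℝ) 1,
            ENNReal.ofReal (hk N s z * (fderiv ℝ ψ (y + t • z) z) ^ 2) := by
          refine lintegral_lintegral_swap ?_
          exact (Measurable.lintegral_prod_right'
            (f := fun q : (E N × E N) × ℝ => ENNReal.ofReal
              (hk N s q.1.2 * (fderiv ℝ ψ (q.1.1 + q.2 • q.1.2) q.1.2) ^ 2))
            hGc.measurable.ennreal_ofReal).aemeasurable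
      _ = ∫⁻ z : E N, ∫⁻ t in Ioc (0 : ℝ) 1, ∫⁻ y : E N,
            ENNReal.ofReal (hk N s z * (fderiv ℝ ψ (y + t • z) z) ^ 2) := by
          refine lintegral_congr fun z => lintegral_lintegral_swap ?_
          have : Continuous (fun q : E N × ℝ =>
              hk N s z * (fderiv ℝ ψ (q.1 + q.2 • z) z) ^ 2) :=
            continuous_const.mul (((hDc.comp (by fun_prop)).clm_apply continuous_const).pow 2)
          exact this.measurable.ennreal_ofReal.aemeasurable
      _ = ∫⁻ z : E N, ∫⁻ y : E N, ENNReal.ofReal (hk N s z * (fderiv ℝ ψ y z) ^ 2) := by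
          refine lintegral_congr fun z => ?_
          have h1 : ∀ t : ℝ, ∫⁻ y : E N,
              ENNReal.ofReal (hk N s z * (fderiv ℝ ψ (y + t • z) z) ^ 2) =
              ∫⁻ y : E N, ENNReal.ofReal (hk N s z * (fderiv ℝ ψ y z) ^ 2) := fun t =>
            lintegral_add_right_eq_self
              (fun y => ENNReal.ofReal (hk N s z * (fderiv ℝ ψ y z) ^ 2)) (t • z)
          simp only [h1, lintegral_const, Measure.restrict_apply MeasurableSet.univ, univ_inter,
            Real.volume_Ioc, sub_zero, ENNReal.ofReal_one, mul_one]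
      _ = ∫⁻ y : E N, ∫⁻ z : E N, ENNReal.ofReal (hk N s z * (fderiv ℝ ψ y z) ^ 2) := by
          refine lintegral_lintegral_swap ?_
          have : Continuous (fun q : E N × E N =>
              hk N s q.1 * (fderiv ℝ ψ q.2 q.1) ^ 2) :=
            (hkc.comp continuous_fst).mul
              (((hDc.comp continuous_snd).clm_apply continuous_fst).pow 2)
          exact this.measurable.ennreal_ofReal.aemeasurable
      _ = ∫⁻ y : E N, ENNReal.ofReal (2 * s * ‖fderiv ℝ ψ y‖ ^ 2) :=
          lintegral_congr fun y => hGauss _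
      _ = ENNReal.ofReal (2 * s * ∫ x, ‖fderiv ℝ ψ x‖ ^ 2) := by
          rw [← ofReal_integral_eq_lintegral_ofReal (hDi.const_mul (2 * s))
            (Filter.Eventually.of_forall fun x => by positivity), integral_const_mul]
  have hI : ∫ p : E N × E N, hk N s (p.1 - p.2) * (ψ p.1 - ψ p.2) ^ 2 ∂(volume.prod volume) ≤
      2 * s * ∫ x, ‖fderiv ℝ ψ x‖ ^ 2 := by
    rw [integral_eq_lintegral_of_nonneg_ae
      (Filter.Eventually.of_forall fun p => mul_nonneg (hkpos _).le (sq_nonneg _))
      hFint.aestronglyMeasurable]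
    exact ENNReal.toReal_le_of_le_ofReal (by positivity) hmain
  rw [hEq]
  linarith

end Pool.Agent.H65.LK
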